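import Mathlib

/-!
# UV: the integral of `sin² (π w) / w²` over `[1/N, N]`
-/

set_option autoImplicit false

open MeasureTheory Set Filter Topology

namespace Pool.Agent.Helper7.UV

/-- The Dirichlet kernel. -/
lemma sin_dir (n : ℕ) (u : ℝ) :
    Real.sin ((2 * n + 1) * u) = Real.sin u * (1 + 2 * ∑ k ∈ Finset.range n, Real.cos (2 * (k + 1) * u)) := by
  induction n with
  | zero => simp
  | succ n ih =>
    have h1 : Real.sin ((2 * ((n + 1 : ℕ) : ℝ) + 1) * u) =
        Real.sin ((2 * n + 1) * u) + 2 * Real.sin u * Real.cos (2 * (n + 1) * u) := by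
      have h2 : (2 * ((n + 1 : ℕ) : ℝ) + 1) * u = 2 * (n + 1) * u + u := by push_cast; ring
      have h3 : (2 * (n : ℝ) + 1) * u = 2 * (n + 1) * u - u := by ring
      rw [h2, h3, Real.sin_add, Real.sin_sub]
      ring
    rw [h1, ih, Finset.sum_range_succ]
    ring

lemma int_cos_zero (k : ℕ) : ∫ u in (0:ℝ)..(Real.pi / 2), Real.cos (2 * (k + 1) * u) = 0 := by
  have h1 : (2 * ((k : ℝ) + 1)) ≠ 0 := by positivity
  rw [intervalIntegral.integral_comp_mul_left (f := Real.cos) h1, _root_.integral_cos]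
  have h2 : 2 * ((k : ℝ) + 1) * (Real.pi / 2) = ((k + 1 : ℕ) : ℝ) * Real.pi := by push_cast; ring
  rw [h2, Real.sin_nat_mul_pi]
  simp

lemma int_dir (n : ℕ) : ∫ u in (0:ℝ)..(Real.pi / 2), (1 + 2 * ∑ k ∈ Finset.range n, Real.cos (2 * ((k : ℝ) + 1) * u)) =
    Real.pi / 2 := by
  rw [intervalIntegral.integral_add (by simp) (by
    apply Continuous.intervalIntegrable
    fun_prop), intervalIntegral.integral_const_mul, intervalIntegral.integral_finsetSum]
  · simp [int_cos_zero]
  · intro k _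
    apply Continuous.intervalIntegrable
    fun_prop

/-- The function `sin² (n u) / sin² u`, as a trigonometric polynomial. -/
noncomputable def fej (n : ℕ) (u : ℝ) : ℝ :=
  ∑ m ∈ Finset.range n, (1 + 2 * ∑ k ∈ Finset.range m, Real.cos (2 * ((k : ℝ) + 1) * u))

lemma fej_eq (n : ℕ) (u : ℝ) : Real.sin (n * u) ^ 2 = Real.sin u ^ 2 * fej n u := by
  induction n with
  | zero => simp [fej]
  | succ n ih =>
    have h0 : fej (n + 1) u = fej n u + (1 + 2 * ∑ k ∈ Finset.range n, Real.cos (2 * ((k : ℝ) + 1) * u)) := by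
      unfold fej
      rw [Finset.sum_range_succ]
    rw [h0, mul_add, ← ih]
    have h1 : Real.sin u ^ 2 * (1 + 2 * ∑ k ∈ Finset.range n, Real.cos (2 * ((k : ℝ) + 1) * u)) =
        Real.sin u * Real.sin ((2 * n + 1) * u) := by
      rw [sin_dir]
      ring
    rw [h1]
    have h2 : ((n + 1 : ℕ) : ℝ) * u = n * u + u := by push_cast; ring
    have h3 : (2 * (n : ℝ) + 1) * u = n * u + (n * u + u) := by ring
    rw [h2, h3, Real.sin_add (n * u) (n * u + u), Real.cos_add, Real.sin_add]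
    have h4 := Real.sin_sq_add_cos_sq u
    have h5 := Real.sin_sq_add_cos_sq (n * u)
    have h6 : Real.cos (n * u) ^ 2 = 1 - Real.sin (n * u) ^ 2 := by linarith
    have h7 : Real.cos u ^ 2 = 1 - Real.sin u ^ 2 := by linarith
    ring_nf
    rw [h6, h7]
    ring

lemma int_fej (n : ℕ) : ∫ u in (0:ℝ)..(Real.pi / 2), fej n u = n * (Real.pi / 2) := by
  unfold fej
  rw [intervalIntegral.integral_finsetSum]
  · simp [int_dir]
  · intro m _
    apply Continuous.intervalIntegrable
    fun_prop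

lemma inv_sin_sq {u : ℝ} (h0 : 0 < u) (h1 : u ≤ Real.pi / 2) : 1 / Real.sin u ^ 2 ≤ 1 / u ^ 2 + 1 := by
  have hs : 0 < Real.sin u := Real.sin_pos_of_pos_of_lt_pi h0 (by linarith [Real.pi_pos])
  have hpi := Real.pi_lt_d2
  -- `sin u ≥ u / √(1 + u²)`
  have h2 : u ^ 2 ≤ Real.sin u ^ 2 * (1 + u ^ 2) := by
    have h3 : u * Real.cos u ≤ Real.sin u := by
      by_cases hu : u < Real.pi / 2
      · have h4 := Real.le_tan h0.le hu
        have hc : 0 < Real.cos u := Real.cos_pos_of_mem_Ioo ⟨by linarith, hu⟩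
        rw [Real.tan_eq_sin_div_cos, le_div_iff₀ hc] at h4
        exact h4
      · have h5 : u = Real.pi / 2 := le_antisymm h1 (not_lt.1 hu)
        rw [h5, Real.cos_pi_div_two, Real.sin_pi_div_two]
        norm_num
    have hc0 : 0 ≤ Real.cos u := Real.cos_nonneg_of_mem_Icc ⟨by linarith, h1⟩
    have h4 := Real.sin_sq_add_cos_sq u
    have h5 : (u * Real.cos u) ^ 2 ≤ Real.sin u ^ 2 := by
      apply pow_le_pow_left₀ _ h3
      positivity
    nlinarith
  rw [div_add_one (by positivity), div_le_div_iff₀ (by positivity) (by positivity)]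
  nlinarith

/-- `∫_0^(nπ/2) (sin x/x)² dx ≥ π/2 - π/(2n)`. -/
lemma int_sinc_nat {n : ℕ} (hn : 1 ≤ n) :
    Real.pi / 2 - Real.pi / (2 * n) ≤ ∫ x in (0:ℝ)..(n * (Real.pi / 2)), Real.sinc x ^ 2 := by
  have hn0 : (0:ℝ) < n := by exact_mod_cast hn
  have hpi := Real.pi_pos
  have h1 : ∫ x in (0:ℝ)..(n * (Real.pi / 2)), Real.sinc x ^ 2 =
      n * ∫ u in (0:ℝ)..(Real.pi / 2), Real.sinc (n * u) ^ 2 := by
    have h2 := intervalIntegral.integral_comp_mul_left (a := 0) (b := Real.pi / 2)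
      (fun x => Real.sinc x ^ 2) hn0.ne'
    rw [h2, mul_zero, smul_eq_mul, ← mul_assoc, mul_inv_cancel₀ hn0.ne', one_mul]
  have h3 : ∫ u in (0:ℝ)..(Real.pi / 2), fej n u ≤
      ∫ u in (0:ℝ)..(Real.pi / 2), (n ^ 2 * Real.sinc (n * u) ^ 2 + 1) := by
    apply intervalIntegral.integral_mono_on_of_le_Ioo (by positivity)
    · apply Continuous.intervalIntegrable
      unfold fej
      fun_prop
    · apply Continuous.intervalIntegrable
      have := Real.continuous_sinc
      fun_prop
    · intro u hu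
      have hu0 : 0 < u := hu.1
      have hs : 0 < Real.sin u := Real.sin_pos_of_pos_of_lt_pi hu0 (by linarith [hu.2])
      have h4 := fej_eq n u
      have h5 : fej n u = Real.sin (n * u) ^ 2 * (1 / Real.sin u ^ 2) := by
        rw [h4]
        field_simp
      have h6 : Real.sinc (n * u) = Real.sin (n * u) / (n * u) := Real.sinc_of_ne_zero (by positivity)
      have h7 : Real.sin (n * u) ^ 2 ≤ 1 := by
        have := Real.sin_sq_add_cos_sq (n * u)
        nlinarith [sq_nonneg (Real.cos (n * u))]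
      rw [h5, h6]
      calc Real.sin (n * u) ^ 2 * (1 / Real.sin u ^ 2) ≤ Real.sin (n * u) ^ 2 * (1 / u ^ 2 + 1) :=
            mul_le_mul_of_nonneg_left (inv_sin_sq hu0 hu.2.le) (sq_nonneg _)
        _ = n ^ 2 * (Real.sin (n * u) / (n * u)) ^ 2 + Real.sin (n * u) ^ 2 := by
            field_simp
        _ ≤ _ := by linarith
  rw [int_fej] at h3
  rw [intervalIntegral.integral_add (by
      apply Continuous.intervalIntegrable
      have := Real.continuous_sinc
      fun_prop) (by simp), intervalIntegral.integral_const_mul] at h3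
  simp only [intervalIntegral.integral_const, smul_eq_mul, mul_one, sub_zero] at h3
  rw [h1]
  set I := ∫ u in (0:ℝ)..(Real.pi / 2), Real.sinc (n * u) ^ 2
  have h8 : n * (Real.pi / 2) - Real.pi / 2 ≤ n * (n * I) := by nlinarith
  have h9 : n * (Real.pi / 2 - Real.pi / (2 * n)) = n * (Real.pi / 2) - Real.pi / 2 := by
    field_simp
  rw [← h9] at h8
  exact le_of_mul_le_mul_left h8 hn0

lemma sinc_int (a b : ℝ) : IntervalIntegrable (fun x => Real.sinc x ^ 2) volume a b := by
  apply Continuous.intervalIntegrable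
  have := Real.continuous_sinc
  fun_prop

/-- `∫_0^X (sin x/x)² dx ≥ π/2 - 4/X`. -/
lemma int_sinc {X : ℝ} (hX : 0 < X) : Real.pi / 2 - 5 / X ≤ ∫ x in (0:ℝ)..X, Real.sinc x ^ 2 := by
  have hpi := Real.pi_pos
  have hpi2 := Real.pi_lt_d2
  have hnn : 0 ≤ ∫ x in (0:ℝ)..X, Real.sinc x ^ 2 :=
    intervalIntegral.integral_nonneg hX.le fun x _ => sq_nonneg _
  by_cases h : X ≤ Real.pi / 2
  · have : Real.pi / 2 ≤ 5 / X := by
      rw [le_div_iff₀ hX]
      nlinarith
    linarith
  · push Not at h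
    set n : ℕ := ⌊X / (Real.pi / 2)⌋₊ with hn
    have hq : 1 ≤ X / (Real.pi / 2) := by
      rw [le_div_iff₀ (by positivity)]
      linarith
    have hn1 : 1 ≤ n := by
      rw [hn, Nat.one_le_floor_iff]
      exact hq
    have hn0 : (0:ℝ) < n := by exact_mod_cast hn1
    have h2 : (n : ℝ) * (Real.pi / 2) ≤ X := by
      have := Nat.floor_le (a := X / (Real.pi / 2)) (by positivity)
      rw [← hn, le_div_iff₀ (by positivity)] at this
      exact this
    have h3 : X < (n + 1 : ℝ) * (Real.pi / 2) := by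
      have := Nat.lt_floor_add_one (X / (Real.pi / 2))
      rw [← hn, div_lt_iff₀ (by positivity)] at this
      exact this
    have h4 : (n + 1 : ℝ) ≤ 2 * n := by
      have : (1:ℝ) ≤ n := by exact_mod_cast hn1
      linarith
    have h5 := int_sinc_nat hn1
    have h6 : ∫ x in (0:ℝ)..(n * (Real.pi / 2)), Real.sinc x ^ 2 ≤ ∫ x in (0:ℝ)..X, Real.sinc x ^ 2 := by
      rw [← intervalIntegral.integral_add_adjacent_intervals (sinc_int 0 (n * (Real.pi / 2))) (sinc_int (n * (Real.pi / 2)) X)]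
      have : 0 ≤ ∫ x in (n * (Real.pi / 2))..X, Real.sinc x ^ 2 :=
        intervalIntegral.integral_nonneg h2 fun x _ => sq_nonneg _
      linarith
    have h7 : Real.pi / (2 * n) ≤ 5 / X := by
      rw [div_le_div_iff₀ (by positivity) hX]
      have h8 : X ≤ n * Real.pi := by nlinarith
      nlinarith
    linarith

/-- `∫_0^b sin² (πw)/w² dw = π ∫_0^(πb) sinc²`. -/
lemma int_pi (b : ℝ) : ∫ w in (0:ℝ)..b, (Real.pi * Real.sinc (Real.pi * w)) ^ 2 =
    Real.pi * ∫ x in (0:ℝ)..(Real.pi * b), Real.sinc x ^ 2 := by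
  have hpi := Real.pi_pos
  have h2 := intervalIntegral.integral_comp_mul_left (a := 0) (b := b)
      (fun x => Real.sinc x ^ 2) hpi.ne'
  have h3 : ∫ w in (0:ℝ)..b, (Real.pi * Real.sinc (Real.pi * w)) ^ 2 =
      Real.pi ^ 2 * ∫ w in (0:ℝ)..b, Real.sinc (Real.pi * w) ^ 2 := by
    rw [← intervalIntegral.integral_const_mul]
    congr 1
    ext w
    ring
  rw [h3, h2, mul_zero, smul_eq_mul]
  field_simp

lemma pisinc_int (a b : ℝ) : IntervalIntegrable (fun w => (Real.pi * Real.sinc (Real.pi * w)) ^ 2) volume a b := by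
  apply Continuous.intervalIntegrable
  have := Real.continuous_sinc
  fun_prop

lemma pisinc_eq {w : ℝ} (hw : 0 < w) : (Real.pi * Real.sinc (Real.pi * w)) ^ 2 = Real.sin (Real.pi * w) ^ 2 / w ^ 2 := by
  have hpi := Real.pi_pos
  rw [Real.sinc_of_ne_zero (by positivity)]
  field_simp

/-- Lower bound for the integral over `[1/N, N]`. -/
theorem int_main {N : ℝ} (hN : 1 ≤ N) :
    Real.pi ^ 2 / 2 - 16 / N ≤ ∫ w in (1 / N)..N, Real.sin (Real.pi * w) ^ 2 / w ^ 2 := by
  have hpi := Real.pi_pos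
  have hpi2 := Real.pi_lt_d2
  have hN0 : 0 < N := by linarith
  have h1N : 1 / N ≤ N := by
    rw [div_le_iff₀ hN0]
    nlinarith
  have h1 : ∫ w in (1 / N)..N, Real.sin (Real.pi * w) ^ 2 / w ^ 2 =
      ∫ w in (1 / N)..N, (Real.pi * Real.sinc (Real.pi * w)) ^ 2 := by
    apply intervalIntegral.integral_congr
    intro w hw
    rw [uIcc_of_le h1N] at hw
    have hw0 : 0 < w := lt_of_lt_of_le (by positivity) hw.1
    exact (pisinc_eq hw0).symm
  have h2 := intervalIntegral.integral_add_adjacent_intervals (pisinc_int 0 (1 / N)) (pisinc_int (1 / N) N)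
  have h3 : ∫ w in (0:ℝ)..(1 / N), (Real.pi * Real.sinc (Real.pi * w)) ^ 2 ≤ 10 / N := by
    have h4 : ∫ w in (0:ℝ)..(1 / N), (Real.pi * Real.sinc (Real.pi * w)) ^ 2 ≤ ∫ w in (0:ℝ)..(1 / N), (10 : ℝ) := by
      apply intervalIntegral.integral_mono_on (by positivity) (pisinc_int _ _) (by simp)
      intro w _
      have h5 : Real.sinc (Real.pi * w) ^ 2 ≤ 1 := by
        have h6 := Real.abs_sinc_le_one (Real.pi * w)
        rw [← sq_abs]
        have h7 := abs_nonneg (Real.sinc (Real.pi * w))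
        nlinarith
      rw [mul_pow]
      have h8 : Real.pi ^ 2 ≤ 10 := by nlinarith
      calc Real.pi ^ 2 * Real.sinc (Real.pi * w) ^ 2 ≤ 10 * 1 :=
            mul_le_mul h8 h5 (sq_nonneg _) (by norm_num)
        _ = 10 := by norm_num
    rw [intervalIntegral.integral_const, smul_eq_mul] at h4
    calc _ ≤ _ := h4
      _ = 10 / N := by ring
  have h9 := int_sinc (X := Real.pi * N) (by positivity)
  rw [int_pi N] at h2
  have h10 : Real.pi * (Real.pi / 2 - 5 / (Real.pi * N)) = Real.pi ^ 2 / 2 - 5 / N := by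
    field_simp
  have h11 := mul_le_mul_of_nonneg_left h9 hpi.le
  rw [h10] at h11
  rw [h1]
  have h12 : 16 / N = 10 / N + 5 / N + 1 / N := by ring
  have h13 : 0 ≤ 1 / N := by positivity
  linarith

end Pool.Agent.Helper7.UV
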