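import Pool.Agent.Helper25.UG.Me
import Pool.Agent.Helper7.UV.Sinc

/-!
# UV: sums over the primes of the resonator (Mertens' first theorem and partial summation)
-/

set_option autoImplicit false

open MeasureTheory Set Filter Topology
open Pool.Agent.Helper25.UG (PPm mert1)

namespace Pool.Agent.Helper7.UV

/-- Partial summation. -/
lemma abel {ι : Type*} (P : Finset ι) (c x : ι → ℝ) {a b : ℝ} (hab : a ≤ b) (hx : ∀ p ∈ P, a ≤ x p ∧ x p ≤ b)
    {H H' : ℝ → ℝ} (hd : ∀ u ∈ Icc a b, HasDerivAt H (H' u) u) (hc : ContinuousOn H' (Icc a b)) :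
    ∑ p ∈ P, c p * H (x p) =
      H b * ∑ p ∈ P, c p - ∫ u in a..b, H' u * ∑ p ∈ P with x p ≤ u, c p := by
  have hii : ∀ s t : ℝ, s ∈ Icc a b → t ∈ Icc a b → IntervalIntegrable H' volume s t := by
    intro s t hs ht
    apply ContinuousOn.intervalIntegrable
    apply hc.mono
    intro y hy
    rcases le_total s t with h | h
    · rw [uIcc_of_le h] at hy
      exact ⟨hs.1.trans hy.1, hy.2.trans ht.2⟩
    · rw [uIcc_of_ge h] at hy
      exact ⟨ht.1.trans hy.1, hy.2.trans hs.2⟩
  have h1 : ∀ p ∈ P, H b - H (x p) = ∫ u in a..b, (if x p ≤ u then H' u else 0) := by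
    intro p hp
    obtain ⟨ha, hb⟩ := hx p hp
    have h2 : ∫ u in (x p)..b, H' u = H b - H (x p) := by
      apply intervalIntegral.integral_eq_sub_of_hasDerivAt
      · intro u hu
        rw [uIcc_of_le hb] at hu
        exact hd u ⟨ha.trans hu.1, hu.2⟩
      · exact hii _ _ ⟨ha, hb⟩ ⟨hab, le_rfl⟩
    rw [← h2]
    have h3 : ∫ u in a..b, (if x p ≤ u then H' u else 0) =
        (∫ u in a..(x p), (if x p ≤ u then H' u else 0)) + ∫ u in (x p)..b, (if x p ≤ u then H' u else 0) := by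
      rw [intervalIntegral.integral_add_adjacent_intervals]
      · have h4 : IntervalIntegrable (fun _ => (0:ℝ)) volume a (x p) := by simp
        apply h4.congr_ae
        rw [Filter.EventuallyEq, ae_restrict_iff' measurableSet_uIoc]
        have h5 : ∀ᵐ u ∂(volume : Measure ℝ), u ≠ x p := by
          rw [ae_iff]
          simp
        filter_upwards [h5] with u hu hm
        rw [uIoc_of_le ha] at hm
        rw [if_neg (not_le.2 (lt_of_le_of_ne hm.2 hu))]
      · have h4 := hii (x p) b ⟨ha, hb⟩ ⟨hab, le_rfl⟩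
        apply h4.congr
        intro u hm
        rw [uIoc_of_le hb] at hm
        exact (if_pos hm.1.le).symm
    rw [h3]
    have h6 : ∫ u in a..(x p), (if x p ≤ u then H' u else 0) = 0 := by
      have h7 : ∫ u in a..(x p), (if x p ≤ u then H' u else 0) = ∫ u in a..(x p), (0:ℝ) := by
        apply intervalIntegral.integral_congr_ae
        have h5 : ∀ᵐ u ∂(volume : Measure ℝ), u ≠ x p := by
          rw [ae_iff]
          simp
        filter_upwards [h5] with u hu hm
        rw [uIoc_of_le ha] at hm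
        rw [if_neg (not_le.2 (lt_of_le_of_ne hm.2 hu))]
      rw [h7]
      simp
    rw [h6, zero_add]
    apply intervalIntegral.integral_congr_ae
    filter_upwards with u hm
    rw [uIoc_of_le hb] at hm
    rw [if_pos hm.1.le]
  have h8 : ∫ u in a..b, H' u * ∑ p ∈ P with x p ≤ u, c p =
      ∑ p ∈ P, c p * ∫ u in a..b, (if x p ≤ u then H' u else 0) := by
    have h9 : ∀ u, H' u * ∑ p ∈ P with x p ≤ u, c p = ∑ p ∈ P, c p * (if x p ≤ u then H' u else 0) := by
      intro u
      rw [Finset.sum_filter, Finset.mul_sum]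
      refine Finset.sum_congr rfl fun p _ => ?_
      split_ifs <;> ring
    simp_rw [h9]
    rw [intervalIntegral.integral_finsetSum]
    · refine Finset.sum_congr rfl fun p _ => ?_
      rw [intervalIntegral.integral_const_mul]
    · intro p hp
      apply IntervalIntegrable.const_mul
      have h10 : (fun u => if x p ≤ u then H' u else 0) = (Ici (x p)).indicator H' := by
        ext u
        simp [Set.indicator, mem_Ici]
      rw [h10]
      have h11 := hii a b ⟨le_rfl, hab⟩ ⟨hab, le_rfl⟩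
      rw [intervalIntegrable_iff] at h11 ⊢
      exact h11.indicator measurableSet_Ici
  rw [h8, Finset.mul_sum, ← Finset.sum_sub_distrib]
  refine Finset.sum_congr rfl fun p hp => ?_
  rw [← h1 p hp]
  ring

/-- Comparison of a sum with an integral. -/
lemma abel_bound {ι : Type*} (P : Finset ι) (c x : ι → ℝ) {a b : ℝ} (hab : a ≤ b)
    (hx : ∀ p ∈ P, a ≤ x p ∧ x p ≤ b) {E : ℝ} (_hE : 0 ≤ E)
    (hS : ∀ u ∈ Icc a b, |(∑ p ∈ P with x p ≤ u, c p) - (u - a)| ≤ E)
    {H H' : ℝ → ℝ} (hd : ∀ u ∈ Icc a b, HasDerivAt H (H' u) u) (hc : ContinuousOn H' (Icc a b)) :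
    |∑ p ∈ P, c p * H (x p) - ∫ u in a..b, H u| ≤ E * (|H b| + ∫ u in a..b, |H' u|) := by
  have hu : uIcc a b = Icc a b := uIcc_of_le hab
  have hH' : IntervalIntegrable H' volume a b := by
    apply ContinuousOn.intervalIntegrable
    rwa [hu]
  have h1 : ∫ u in a..b, H u = H b * (b - a) - ∫ u in a..b, H' u * (u - a) := by
    have h2 := intervalIntegral.integral_mul_deriv_eq_deriv_mul (a := a) (b := b) (u := fun u => u - a) (v := H)
      (u' := fun _ => 1) (v' := H') (fun u hu' => (hasDerivAt_id u).sub_const a)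
      (fun u hu' => hd u (by rwa [hu] at hu')) (by simp) hH'
    simp only [one_mul, sub_self, zero_mul, sub_zero] at h2
    have h3 : ∫ u in a..b, H' u * (u - a) = ∫ u in a..b, (u - a) * H' u := by
      congr 1
      ext u
      ring
    rw [h3, h2]
    ring
  have hall : ∑ p ∈ P, c p = ∑ p ∈ P with x p ≤ b, c p := by
    rw [Finset.sum_filter]
    refine Finset.sum_congr rfl fun p hp => ?_
    rw [if_pos (hx p hp).2]
  have hSm : IntervalIntegrable (fun u => H' u * ∑ p ∈ P with x p ≤ u, c p) volume a b := by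
    have h9 : (fun u => H' u * ∑ p ∈ P with x p ≤ u, c p) = fun u => ∑ p ∈ P, c p * (Ici (x p)).indicator H' u := by
      ext u
      rw [Finset.sum_filter, Finset.mul_sum]
      refine Finset.sum_congr rfl fun p _ => ?_
      simp only [Set.indicator, mem_Ici]
      split_ifs <;> ring
    rw [h9]
    have h10 : ∀ p ∈ P, IntervalIntegrable (fun u => c p * (Ici (x p)).indicator H' u) volume a b := by
      intro p _
      apply IntervalIntegrable.const_mul
      have h11 := hH'
      rw [intervalIntegrable_iff] at h11 ⊢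
      exact h11.indicator measurableSet_Ici
    have h12 := IntervalIntegrable.sum P (f := fun p u => c p * (Ici (x p)).indicator H' u) h10
    refine h12.congr ?_
    intro u _
    simp
  have h20 : IntervalIntegrable (fun u => H' u * (u - a)) volume a b := by
    apply ContinuousOn.intervalIntegrable
    rw [hu]
    apply hc.mul
    fun_prop
  rw [abel P c x hab hx hd hc, h1]
  have h3 : H b * ∑ p ∈ P, c p - (∫ u in a..b, H' u * ∑ p ∈ P with x p ≤ u, c p) -
      (H b * (b - a) - ∫ u in a..b, H' u * (u - a)) =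
      H b * ((∑ p ∈ P with x p ≤ b, c p) - (b - a)) -
        ∫ u in a..b, H' u * ((∑ p ∈ P with x p ≤ u, c p) - (u - a)) := by
    have h4 : ∫ u in a..b, H' u * ((∑ p ∈ P with x p ≤ u, c p) - (u - a)) =
        (∫ u in a..b, H' u * ∑ p ∈ P with x p ≤ u, c p) - ∫ u in a..b, H' u * (u - a) := by
      rw [← intervalIntegral.integral_sub hSm h20]
      congr 1
      ext u
      ring
    rw [h4, hall]
    ring
  rw [h3]
  have h5 : |H b * ((∑ p ∈ P with x p ≤ b, c p) - (b - a))| ≤ E * |H b| := by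
    rw [abs_mul, mul_comm]
    exact mul_le_mul_of_nonneg_right (hS b ⟨hab, le_rfl⟩) (abs_nonneg _)
  have h6 : |∫ u in a..b, H' u * ((∑ p ∈ P with x p ≤ u, c p) - (u - a))| ≤ E * ∫ u in a..b, |H' u| := by
    rw [← intervalIntegral.integral_const_mul]
    have h7 := intervalIntegral.norm_integral_le_of_norm_le (μ := volume) (a := a) (b := b)
      (f := fun u => H' u * ((∑ p ∈ P with x p ≤ u, c p) - (u - a))) (g := fun u => E * |H' u|) hab
      (by
        filter_upwards with u hm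
        rw [Real.norm_eq_abs, abs_mul, mul_comm]
        exact mul_le_mul_of_nonneg_right (hS u ⟨hm.1.le, hm.2⟩) (abs_nonneg _)) (hH'.abs.const_mul E)
    rwa [Real.norm_eq_abs] at h7
  calc _ ≤ |H b * ((∑ p ∈ P with x p ≤ b, c p) - (b - a))| +
        |∫ u in a..b, H' u * ((∑ p ∈ P with x p ≤ u, c p) - (u - a))| := abs_sub _ _
    _ ≤ _ := by
      rw [mul_add]
      exact add_le_add h5 h6

/-- Mertens' first theorem in a window, real end points. -/
theorem mert_window : ∃ E : ℝ, 0 < E ∧ ∀ a u : ℝ, 0 ≤ a → a ≤ u → ∀ P : Finset ℕ,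
    (∀ p : ℕ, p ∈ P ↔ p.Prime ∧ a < Real.log p ∧ Real.log p ≤ u) →
    |∑ p ∈ P, Real.log p / p - (u - a)| ≤ E := by
  obtain ⟨C, hC, hm⟩ := mert1
  refine ⟨2 * C + 2, by positivity, fun a u ha hau P hP => ?_⟩
  have key : ∀ y : ℝ, 0 ≤ y → |∑ p ∈ PPm ⌊Real.exp y⌋₊, Real.log p / p - y| ≤ C + 1 := by
    intro y hy
    have h1 : 1 ≤ ⌊Real.exp y⌋₊ := by
      rw [Nat.one_le_floor_iff]
      exact Real.one_le_exp hy
    have h2 := hm _ h1
    have h0 : (1:ℝ) ≤ (⌊Real.exp y⌋₊ : ℝ) := by exact_mod_cast h1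
    have h3 : (⌊Real.exp y⌋₊ : ℝ) ≤ Real.exp y := Nat.floor_le (Real.exp_pos y).le
    have h4 : Real.exp y < (⌊Real.exp y⌋₊ : ℝ) + 1 := Nat.lt_floor_add_one _
    have h5 : Real.log (⌊Real.exp y⌋₊ : ℝ) ≤ y := by
      rw [Real.log_le_iff_le_exp (by linarith)]
      exact h3
    have h6 : y - 1 ≤ Real.log (⌊Real.exp y⌋₊ : ℝ) := by
      rw [Real.le_log_iff_exp_le (by linarith)]
      have h7 : Real.exp (y - 1) ≤ Real.exp y / 2 := by
        rw [Real.exp_sub]
        apply div_le_div_of_nonneg_left (Real.exp_pos y).le (by norm_num)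
        have := Real.exp_one_gt_d9
        linarith
      linarith
    have h8 : |Real.log (⌊Real.exp y⌋₊ : ℝ) - y| ≤ 1 := by
      rw [abs_le]
      constructor <;> linarith
    calc _ = |(∑ p ∈ PPm ⌊Real.exp y⌋₊, Real.log p / p - Real.log (⌊Real.exp y⌋₊ : ℝ)) +
          (Real.log (⌊Real.exp y⌋₊ : ℝ) - y)| := by congr 1; ring
      _ ≤ _ := (abs_add_le _ _).trans (add_le_add h2 h8)
  have hmem : ∀ (y : ℝ) (p : ℕ), p ∈ PPm ⌊Real.exp y⌋₊ ↔ p.Prime ∧ Real.log p ≤ y := by
    intro y p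
    unfold PPm
    rw [Finset.mem_filter, Finset.mem_Icc]
    constructor
    · rintro ⟨⟨h1, h2⟩, h3⟩
      refine ⟨h3, ?_⟩
      have hp0 : (0:ℝ) < p := by exact_mod_cast h3.pos
      rw [Real.log_le_iff_le_exp hp0]
      exact (Nat.le_floor_iff (Real.exp_pos y).le).1 h2
    · rintro ⟨h3, h4⟩
      have hp0 : (0:ℝ) < p := by exact_mod_cast h3.pos
      rw [Real.log_le_iff_le_exp hp0] at h4
      exact ⟨⟨h3.one_le, (Nat.le_floor_iff (Real.exp_pos y).le).2 h4⟩, h3⟩
  have hsplit : ∑ p ∈ PPm ⌊Real.exp u⌋₊, Real.log p / p =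
      ∑ p ∈ PPm ⌊Real.exp a⌋₊, Real.log p / p + ∑ p ∈ P, Real.log p / p := by
    rw [← Finset.sum_union]
    · apply Finset.sum_congr _ fun _ _ => rfl
      ext p
      rw [Finset.mem_union, hmem, hmem, hP]
      constructor
      · rintro ⟨h1, h2⟩
        rcases le_or_gt (Real.log p) a with h | h
        · exact Or.inl ⟨h1, h⟩
        · exact Or.inr ⟨h1, h, h2⟩
      · rintro (⟨h1, h2⟩ | ⟨h1, _, h2⟩)
        · exact ⟨h1, h2.trans hau⟩
        · exact ⟨h1, h2⟩
    · rw [Finset.disjoint_left]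
      intro p h1 h2
      rw [hmem] at h1
      rw [hP] at h2
      linarith [h1.2, h2.2.1]
  have h1 := abs_le.1 (key u (ha.trans hau))
  have h2 := abs_le.1 (key a ha)
  rw [abs_le]
  constructor <;> linarith [h1.1, h1.2, h2.1, h2.2]

/-- Sums over primes with a smooth weight. -/
theorem prime_sum : ∃ E : ℝ, 0 < E ∧ ∀ a b : ℝ, 0 ≤ a → a ≤ b → ∀ P : Finset ℕ,
    (∀ p : ℕ, p ∈ P ↔ p.Prime ∧ a < Real.log p ∧ Real.log p ≤ b) → ∀ H H' : ℝ → ℝ,
    (∀ u ∈ Icc a b, HasDerivAt H (H' u) u) → ContinuousOn H' (Icc a b) →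
    |∑ p ∈ P, Real.log p / p * H (Real.log p) - ∫ u in a..b, H u| ≤ E * (|H b| + ∫ u in a..b, |H' u|) := by
  obtain ⟨E, hE, hm⟩ := mert_window
  refine ⟨E, hE, fun a b ha hab P hP H H' hd hc => ?_⟩
  apply abel_bound P (fun p => Real.log p / p) (fun p => Real.log p) hab _ hE.le _ hd hc
  · intro p hp
    rw [hP] at hp
    exact ⟨hp.2.1.le, hp.2.2⟩
  · intro u hu
    apply hm a u ha hu.1
    intro p
    rw [Finset.mem_filter, hP]
    constructor
    · rintro ⟨⟨h1, h2, _⟩, h3⟩
      exact ⟨h1, h2, h3⟩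
    · rintro ⟨h1, h2, h3⟩
      exact ⟨⟨h1, h2, h3.trans hu.2⟩, h3⟩

/-- The derivative of `sin² (π w)/w²`. -/
noncomputable def hh' (w : ℝ) : ℝ :=
  2 * Real.pi * Real.sin (Real.pi * w) * Real.cos (Real.pi * w) / w ^ 2 - 2 * Real.sin (Real.pi * w) ^ 2 / w ^ 3

lemma hh_deriv {w : ℝ} (hw : w ≠ 0) :
    HasDerivAt (fun w => Real.sin (Real.pi * w) ^ 2 / w ^ 2) (hh' w) w := by
  have h1 : HasDerivAt (fun w => Real.sin (Real.pi * w)) (Real.cos (Real.pi * w) * Real.pi) w := by
    have h0 : HasDerivAt (fun w : ℝ => Real.pi * w) Real.pi w := by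
      have := (hasDerivAt_id w).const_mul Real.pi
      rw [mul_one] at this
      exact this
    exact h0.sin
  have h2 := (h1.pow 2).div (hasDerivAt_pow 2 w) (pow_ne_zero 2 hw)
  refine h2.congr_deriv ?_
  unfold hh'
  simp only [Pi.pow_apply]
  field_simp
  norm_num
  ring

lemma hh'_bound {N w : ℝ} (hN : 1 ≤ N) (hw : 1 / N ≤ w) : |hh' w| ≤ 4 * Real.pi ^ 2 * N := by
  have hpi := Real.pi_pos
  have hN0 : 0 < N := by linarith
  have hw0 : 0 < w := lt_of_lt_of_le (by positivity) hw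
  have h1 : |Real.sin (Real.pi * w)| ≤ Real.pi * w := by
    have := Real.abs_sin_le_abs (x := Real.pi * w)
    rwa [abs_of_pos (by positivity : 0 < Real.pi * w)] at this
  have h2 := Real.abs_cos_le_one (Real.pi * w)
  have h3 : |hh' w| ≤ 2 * Real.pi * (Real.pi * w) * 1 / w ^ 2 + 2 * (Real.pi * w) ^ 2 / w ^ 3 := by
    unfold hh'
    refine (abs_sub _ _).trans (add_le_add ?_ ?_)
    · rw [abs_div, abs_mul, abs_mul, abs_of_pos (by positivity : 0 < 2 * Real.pi), abs_of_pos (by positivity : 0 < w ^ 2)]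
      gcongr
    · rw [abs_div, abs_mul, abs_pow, abs_of_pos (by norm_num : (0:ℝ) < 2), abs_of_pos (by positivity : 0 < w ^ 3)]
      gcongr
  have h4 : 2 * Real.pi * (Real.pi * w) * 1 / w ^ 2 + 2 * (Real.pi * w) ^ 2 / w ^ 3 = 4 * Real.pi ^ 2 * (1 / w) := by
    field_simp
    ring
  rw [h4] at h3
  have h5 : 1 / w ≤ N := by
    rw [div_le_iff₀ hw0]
    rw [div_le_iff₀ hN0] at hw
    linarith
  exact h3.trans (mul_le_mul_of_nonneg_left h5 (by positivity))

/-- The sum `∑ sin² (π w_p)/(p w_p)` over the primes with `1/N < w_p ≤ N`, `w_p = log p/L`. -/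
theorem sinc_sum_abs : ∃ E : ℝ, 0 < E ∧ ∀ N L : ℝ, 1 ≤ N → 0 < L → ∀ P : Finset ℕ,
    (∀ p : ℕ, p ∈ P ↔ p.Prime ∧ L / N < Real.log p ∧ Real.log p ≤ N * L) →
    |∑ p ∈ P, Real.sin (Real.pi * (Real.log p / L)) ^ 2 / (p * (Real.log p / L)) -
      ∫ w in (1 / N)..N, Real.sin (Real.pi * w) ^ 2 / w ^ 2| ≤ E * N ^ 2 / L := by
  obtain ⟨E, hE, hs⟩ := prime_sum
  refine ⟨50 * E, by positivity, fun N L hN hL P hP => ?_⟩
  have hpi := Real.pi_pos
  have hpi2 := Real.pi_lt_d2
  have hpi10 : Real.pi ^ 2 ≤ 10 := by nlinarith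
  have hN0 : 0 < N := by linarith
  have hab : L / N ≤ N * L := by
    rw [div_le_iff₀ hN0]
    nlinarith [mul_pos hL hN0]
  have h1N : 1 / N ≤ N := by
    rw [div_le_iff₀ hN0]
    nlinarith
  set H : ℝ → ℝ := fun u => (1 / L) * (Real.sin (Real.pi * (u / L)) ^ 2 / (u / L) ^ 2) with hH
  set H' : ℝ → ℝ := fun u => (1 / L) * (hh' (u / L) * (1 / L)) with hH'
  have hd : ∀ u ∈ Icc (L / N) (N * L), HasDerivAt H (H' u) u := by
    intro u hu
    have hu0 : 0 < u := lt_of_lt_of_le (by positivity) hu.1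
    have h1 : u / L ≠ 0 := by positivity
    have h2 := (hh_deriv h1).comp u ((hasDerivAt_id u).div_const L)
    exact h2.const_mul (1 / L)
  have hc : ContinuousOn H' (Icc (L / N) (N * L)) := by
    apply ContinuousOn.mul continuousOn_const
    apply ContinuousOn.mul _ continuousOn_const
    unfold hh'
    apply ContinuousOn.sub
    · apply ContinuousOn.div
      · fun_prop
      · fun_prop
      · intro u hu
        have hu0 : 0 < u := lt_of_lt_of_le (by positivity) hu.1
        positivity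
    · apply ContinuousOn.div
      · fun_prop
      · fun_prop
      · intro u hu
        have hu0 : 0 < u := lt_of_lt_of_le (by positivity) hu.1
        positivity
  have h1 := hs (L / N) (N * L) (by positivity) hab P hP H H' hd hc
  have h2 : ∑ p ∈ P, Real.log p / p * H (Real.log p) =
      ∑ p ∈ P, Real.sin (Real.pi * (Real.log p / L)) ^ 2 / (p * (Real.log p / L)) := by
    refine Finset.sum_congr rfl fun p hp => ?_
    rw [hP] at hp
    have hp0 : (0:ℝ) < p := by exact_mod_cast hp.1.pos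
    have hl0 : 0 < Real.log p := lt_trans (by positivity) hp.2.1
    rw [hH]
    field_simp
  have h3 : ∫ u in (L / N)..(N * L), H u = ∫ w in (1 / N)..N, Real.sin (Real.pi * w) ^ 2 / w ^ 2 := by
    rw [hH]
    rw [intervalIntegral.integral_const_mul]
    rw [intervalIntegral.integral_comp_div (fun w => Real.sin (Real.pi * w) ^ 2 / w ^ 2) hL.ne', smul_eq_mul, ← mul_assoc,
      one_div_mul_cancel hL.ne', one_mul]
    congr 1
    · field_simp
    · field_simp
  have h4 : |H (N * L)| ≤ 10 * N ^ 2 / L := by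
    have h5 : N * L / L = N := by field_simp
    rw [hH]
    show |(1 / L) * (Real.sin (Real.pi * (N * L / L)) ^ 2 / (N * L / L) ^ 2)| ≤ _
    rw [h5, abs_of_nonneg (by positivity)]
    have h6 : Real.sin (Real.pi * N) ^ 2 ≤ 1 := by
      have := Real.sin_sq_add_cos_sq (Real.pi * N)
      nlinarith [sq_nonneg (Real.cos (Real.pi * N))]
    have h7 : Real.sin (Real.pi * N) ^ 2 / N ^ 2 ≤ 1 := by
      rw [div_le_one (by positivity)]
      nlinarith
    calc (1 / L) * (Real.sin (Real.pi * N) ^ 2 / N ^ 2) ≤ (1 / L) * 1 := by gcongr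
      _ ≤ 10 * N ^ 2 / L := by
        rw [mul_one]
        gcongr
        nlinarith
  have h8 : ∫ u in (L / N)..(N * L), |H' u| ≤ 40 * N ^ 2 / L := by
    have h9 : ∀ u ∈ Icc (L / N) (N * L), |H' u| ≤ 40 * N / L ^ 2 := by
      intro u hu
      have h10 : 1 / N ≤ u / L := by
        rw [le_div_iff₀ hL]
        calc 1 / N * L = L / N := by ring
          _ ≤ u := hu.1
      have h11 := hh'_bound hN h10
      rw [hH']
      show |(1 / L) * (hh' (u / L) * (1 / L))| ≤ _
      rw [abs_mul, abs_mul, abs_of_pos (by positivity : 0 < 1 / L)]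
      have h12 : 4 * Real.pi ^ 2 * N ≤ 40 * N := by nlinarith
      calc 1 / L * (|hh' (u / L)| * (1 / L)) ≤ 1 / L * (40 * N * (1 / L)) := by
            gcongr
            exact h11.trans h12
        _ = 40 * N / L ^ 2 := by ring
    have h13 : ∫ u in (L / N)..(N * L), |H' u| ≤ ∫ u in (L / N)..(N * L), (40 * N / L ^ 2 : ℝ) := by
      apply intervalIntegral.integral_mono_on hab _ (by simp) h9
      apply ContinuousOn.intervalIntegrable
      rw [uIcc_of_le hab]
      exact hc.abs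
    rw [intervalIntegral.integral_const, smul_eq_mul] at h13
    refine h13.trans ?_
    have h14 : N * L - L / N ≤ N * L := by
      have : 0 ≤ L / N := by positivity
      linarith
    calc (N * L - L / N) * (40 * N / L ^ 2) ≤ (N * L) * (40 * N / L ^ 2) := by gcongr
      _ = 40 * N ^ 2 / L := by field_simp
  rw [h2, h3] at h1
  have h17 : E * (|H (N * L)| + ∫ u in (L / N)..(N * L), |H' u|) ≤ E * (10 * N ^ 2 / L + 40 * N ^ 2 / L) := by
    gcongr
  have h18 : E * (10 * N ^ 2 / L + 40 * N ^ 2 / L) = 50 * E * N ^ 2 / L := by ring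
  linarith

/-- The same, lower bound. -/
theorem sinc_sum : ∃ E : ℝ, 0 < E ∧ ∀ N L : ℝ, 1 ≤ N → 0 < L → ∀ P : Finset ℕ,
    (∀ p : ℕ, p ∈ P ↔ p.Prime ∧ L / N < Real.log p ∧ Real.log p ≤ N * L) →
    Real.pi ^ 2 / 2 - 16 / N - E * N ^ 2 / L ≤
      ∑ p ∈ P, Real.sin (Real.pi * (Real.log p / L)) ^ 2 / (p * (Real.log p / L)) := by
  obtain ⟨E, hE, hs⟩ := sinc_sum_abs
  refine ⟨E, hE, fun N L hN hL P hP => ?_⟩
  have h1 := abs_le.1 (hs N L hN hL P hP)
  have h2 := int_main hN
  linarith [h1.1]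

end Pool.Agent.Helper7.UV
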