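import Pool.Agent.Helper69.UV.Defs
import Pool.Agent.Helper7.UV.Mert

/-!
# UV: the sum `∑ sin² (π ww p)/(p ww p)` over the primes of the resonator
-/

set_option autoImplicit false
open MeasureTheory Set Filter Topology
open Pool.Agent.Helper69.UV (Adm ww PR)

namespace Pool.Agent.Helper7.UV

/-- Facts on an admissible `c`. -/
lemma adm_pos {δ c0 T c : ℝ} (hT : 1 < T) (hc0 : 1 ≤ c0) (h : Adm δ c0 T c) : 0 < c ∧ 0 < Real.log T := by
  obtain ⟨h1, -⟩ := h
  exact ⟨by linarith, Real.log_pos hT⟩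

/-- Membership in `PR`, logarithmic form. -/
lemma mem_PR {δ T c : ℝ} (hT : 1 < T) (hδ : 0 < δ) (hc : 0 < c) (p : ℕ) :
    p ∈ PR δ T c ↔ p.Prime ∧ Real.log T / c / (1 / δ) < Real.log p ∧ Real.log p ≤ 1 / δ * (Real.log T / c) := by
  have hT0 : 0 < T := by linarith
  unfold PR
  rw [Finset.mem_filter, Finset.mem_range, Nat.lt_succ_iff]
  constructor
  · rintro ⟨h1, h2, h3⟩
    have hp0 : (0:ℝ) < p := by exact_mod_cast h2.pos
    refine ⟨h2, ?_, ?_⟩
    · have h4 := Real.log_lt_log (by positivity) h3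
      rw [Real.log_rpow hT0] at h4
      calc Real.log T / c / (1 / δ) = δ / c * Real.log T := by
            field_simp
        _ < _ := h4
    · have h5 := (Nat.le_floor_iff (by positivity)).1 h1
      have h6 := Real.log_le_log hp0 h5
      rw [Real.log_rpow hT0] at h6
      calc Real.log p ≤ 1 / (δ * c) * Real.log T := h6
        _ = _ := by field_simp
  · rintro ⟨h2, h3, h4⟩
    have hp0 : (0:ℝ) < p := by exact_mod_cast h2.pos
    refine ⟨?_, h2, ?_⟩
    · rw [Nat.le_floor_iff (by positivity), ← Real.log_le_log_iff hp0 (by positivity), Real.log_rpow hT0]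
      calc Real.log p ≤ 1 / δ * (Real.log T / c) := h4
        _ = _ := by field_simp
    · rw [← Real.log_lt_log_iff (by positivity) hp0, Real.log_rpow hT0]
      calc δ / c * Real.log T = Real.log T / c / (1 / δ) := by field_simp
        _ < _ := h3

/-- The main sum of `V`. -/
theorem pr_sum {δ : ℝ} (hδ : 0 < δ) (hδ1 : δ ≤ 1 / 32) : ∃ c0 T0 : ℝ, ∀ T, T0 ≤ T → ∀ c, Adm δ c0 T c →
    Real.pi ^ 2 / 2 - 17 * δ ≤ ∑ p ∈ PR δ T c, Real.sin (Real.pi * ww T c p) ^ 2 / (p * ww T c p) := by
  obtain ⟨E, hE, hs⟩ := sinc_sum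
  have htend : Tendsto (fun T : ℝ => Real.log (Real.log T)) atTop atTop :=
    Real.tendsto_log_atTop.comp Real.tendsto_log_atTop
  obtain ⟨T1, hT1⟩ := eventually_atTop.1 (htend.eventually_ge_atTop (E / (64 * δ)))
  refine ⟨1, max T1 (Real.exp (Real.exp 1)), fun T hT c hadm => ?_⟩
  have hTT1 : T1 ≤ T := (le_max_left _ _).trans hT
  have hTe : Real.exp (Real.exp 1) ≤ T := (le_max_right _ _).trans hT
  have he1 : 1 < Real.exp (Real.exp 1) := Real.one_lt_exp_iff.2 (Real.exp_pos 1)
  have hT1' : 1 < T := lt_of_lt_of_le he1 hTe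
  obtain ⟨hc, hlog⟩ := adm_pos hT1' le_rfl hadm
  have hll : 1 ≤ Real.log (Real.log T) := by
    rw [Real.le_log_iff_exp_le hlog, Real.le_log_iff_exp_le (by linarith)]
    exact hTe
  have h1 := hs (1 / δ) (Real.log T / c) (by rw [le_div_iff₀ hδ]; linarith) (by positivity) (PR δ T c)
    (mem_PR hT1' hδ hc)
  have h2 : ∀ p : ℕ, Real.log p / (Real.log T / c) = ww T c p := by
    intro p
    unfold ww
    field_simp
  simp only [h2] at h1
  refine le_trans ?_ h1
  have h3 : 16 / (1 / δ) = 16 * δ := by field_simp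
  have h4 : E * (1 / δ) ^ 2 / (Real.log T / c) ≤ δ := by
    have h5 := hadm.2
    have h6 : E ≤ 64 * δ * Real.log (Real.log T) := by
      have := hT1 T hTT1
      rw [div_le_iff₀ (by positivity)] at this
      linarith
    have h7 : E * c ≤ δ ^ 3 * Real.log T := by
      calc E * c ≤ 64 * δ * Real.log (Real.log T) * c := by gcongr
        _ = δ * (64 * (c * Real.log (Real.log T))) := by ring
        _ ≤ δ * (δ ^ 2 * Real.log T) := by gcongr
        _ = _ := by ring
    have h8 : E * (1 / δ) ^ 2 / (Real.log T / c) = E * c / (δ ^ 2 * Real.log T) := by field_simp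
    rw [h8, div_le_iff₀ (by positivity)]
    calc E * c ≤ δ ^ 3 * Real.log T := h7
      _ = _ := by ring
  rw [h3]
  linarith

end Pool.Agent.Helper7.UV
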