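import Pool.Agent.Helper7.UV.PRsum

/-!
# UV R3, R3': the primes of the resonator
-/

set_option autoImplicit false
open MeasureTheory Set Filter Topology
open Pool.Agent.Helper69.UV (Adm ww PR sn)

namespace Pool.Agent.Helper7.UV

/-- `∫_0^(nπ/2) (sin x/x)² dx ≤ π/2`. -/
lemma int_sinc_nat_le {n : ℕ} (hn : 1 ≤ n) :
    ∫ x in (0:ℝ)..(n * (Real.pi / 2)), Real.sinc x ^ 2 ≤ Real.pi / 2 := by
  have hn0 : (0:ℝ) < n := by exact_mod_cast hn
  have hpi := Real.pi_pos
  have h1 : ∫ x in (0:ℝ)..(n * (Real.pi / 2)), Real.sinc x ^ 2 =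
      n * ∫ u in (0:ℝ)..(Real.pi / 2), Real.sinc (n * u) ^ 2 := by
    have h2 := intervalIntegral.integral_comp_mul_left (a := 0) (b := Real.pi / 2)
      (fun x => Real.sinc x ^ 2) hn0.ne'
    rw [h2, mul_zero, smul_eq_mul, ← mul_assoc, mul_inv_cancel₀ hn0.ne', one_mul]
  have h3 : ∫ u in (0:ℝ)..(Real.pi / 2), n ^ 2 * Real.sinc (n * u) ^ 2 ≤
      ∫ u in (0:ℝ)..(Real.pi / 2), fej n u := by
    apply intervalIntegral.integral_mono_on_of_le_Ioo (by positivity)
    · apply Continuous.intervalIntegrable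
      have := Real.continuous_sinc
      fun_prop
    · apply Continuous.intervalIntegrable
      unfold fej
      fun_prop
    · intro u hu
      have hu0 : 0 < u := hu.1
      have hs : 0 < Real.sin u := Real.sin_pos_of_pos_of_lt_pi hu0 (by linarith [hu.2])
      have h4 := fej_eq n u
      have h5 : fej n u = Real.sin (n * u) ^ 2 * (1 / Real.sin u ^ 2) := by
        rw [h4]
        field_simp
      have h6 : Real.sinc (n * u) = Real.sin (n * u) / (n * u) := Real.sinc_of_ne_zero (by positivity)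
      have h7 : Real.sin u ≤ u := Real.sin_le hu0.le
      rw [h5, h6]
      calc n ^ 2 * (Real.sin (n * u) / (n * u)) ^ 2 = Real.sin (n * u) ^ 2 * (1 / u ^ 2) := by
            field_simp
        _ ≤ _ := by gcongr
  rw [int_fej, intervalIntegral.integral_const_mul] at h3
  rw [h1]
  set I := ∫ u in (0:ℝ)..(Real.pi / 2), Real.sinc (n * u) ^ 2
  have h8 : n * (n * I) ≤ n * (Real.pi / 2) := by
    calc n * (n * I) = n ^ 2 * I := by ring
      _ ≤ _ := h3
  exact le_of_mul_le_mul_left h8 hn0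

lemma int_sinc_le {X : ℝ} (_hX : 0 ≤ X) : ∫ x in (0:ℝ)..X, Real.sinc x ^ 2 ≤ Real.pi / 2 := by
  have hpi := Real.pi_pos
  set n : ℕ := ⌊X / (Real.pi / 2)⌋₊ + 1 with hn
  have h3 : X < n * (Real.pi / 2) := by
    have := Nat.lt_floor_add_one (X / (Real.pi / 2))
    rw [div_lt_iff₀ (by positivity)] at this
    rw [hn]
    push_cast
    exact this
  have h5 := int_sinc_nat_le (n := n) (by omega)
  rw [← intervalIntegral.integral_add_adjacent_intervals (sinc_int 0 X) (sinc_int X (n * (Real.pi / 2)))] at h5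
  have : 0 ≤ ∫ x in X..(n * (Real.pi / 2)), Real.sinc x ^ 2 :=
    intervalIntegral.integral_nonneg h3.le fun x _ => sq_nonneg _
  linarith

/-- Upper bound for the integral over `[1/N, N]`. -/
theorem int_main_le {N : ℝ} (hN : 1 ≤ N) :
    ∫ w in (1 / N)..N, Real.sin (Real.pi * w) ^ 2 / w ^ 2 ≤ Real.pi ^ 2 / 2 := by
  have hpi := Real.pi_pos
  have hN0 : 0 < N := by linarith
  have h1N : 1 / N ≤ N := by
    rw [div_le_iff₀ hN0]
    nlinarith
  have h1 : ∫ w in (1 / N)..N, Real.sin (Real.pi * w) ^ 2 / w ^ 2 =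
      ∫ w in (1 / N)..N, (Real.pi * Real.sinc (Real.pi * w)) ^ 2 := by
    apply intervalIntegral.integral_congr
    intro w hw
    rw [uIcc_of_le h1N] at hw
    have hw0 : 0 < w := lt_of_lt_of_le (by positivity) hw.1
    exact (pisinc_eq hw0).symm
  have h2 := intervalIntegral.integral_add_adjacent_intervals (pisinc_int 0 (1 / N)) (pisinc_int (1 / N) N)
  have h3 : 0 ≤ ∫ w in (0:ℝ)..(1 / N), (Real.pi * Real.sinc (Real.pi * w)) ^ 2 :=
    intervalIntegral.integral_nonneg (by positivity) fun x _ => sq_nonneg _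
  have h9 := int_sinc_le (X := Real.pi * N) (by positivity)
  rw [int_pi N] at h2
  have h11 := mul_le_mul_of_nonneg_left h9 hpi.le
  rw [h1]
  have h12 : Real.pi * (Real.pi / 2) = Real.pi ^ 2 / 2 := by ring
  linarith

/-- Large `T`: `c ≤ η log T` and more. -/
lemma adm_small {δ c0 T c : ℝ} (hT : Real.exp (Real.exp 1) ≤ T) (hc0 : 1 ≤ c0) (h : Adm δ c0 T c) :
    1 < T ∧ 0 < c ∧ 0 < Real.log T ∧ 1 ≤ Real.log (Real.log T) := by
  have he1 : 1 < Real.exp (Real.exp 1) := Real.one_lt_exp_iff.2 (Real.exp_pos 1)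
  have hT1' : 1 < T := lt_of_lt_of_le he1 hT
  obtain ⟨hc, hlog⟩ := adm_pos hT1' hc0 h
  refine ⟨hT1', hc, hlog, ?_⟩
  rw [Real.le_log_iff_exp_le hlog, Real.le_log_iff_exp_le (by linarith)]
  exact hT

/-- R3. -/
theorem PR_facts {δ : ℝ} (hδ : 0 < δ) (hδ1 : δ ≤ 1 / 32) : ∃ C c0 T0 : ℝ, 0 < C ∧ ∀ T, T0 ≤ T → ∀ c, Adm δ c0 T c →
    (∀ p ∈ PR δ T c, p.Prime ∧ Real.log T ^ 4 < p ∧ (p : ℝ) ≤ T ^ (δ / 1000) ∧ δ < ww T c p ∧ ww T c p ≤ 1 / δ) ∧
    1 / 2 ≤ ∑ p ∈ PR δ T c, (1 / p : ℝ) ∧ ∑ p ∈ PR δ T c, (1 / p : ℝ) ≤ C := by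
  obtain ⟨E, hE, hs⟩ := prime_sum
  have htend : Tendsto (fun T : ℝ => Real.log (Real.log T)) atTop atTop :=
    Real.tendsto_log_atTop.comp Real.tendsto_log_atTop
  obtain ⟨T1, hT1⟩ := eventually_atTop.1 (htend.eventually_ge_atTop E)
  have hlog32 : (3:ℝ) ≤ Real.log 32 := by
    rw [Real.le_log_iff_exp_le (by norm_num)]
    have h1 : Real.exp 3 = Real.exp 1 ^ 3 := by
      rw [← Real.exp_nat_mul]
      norm_num
    rw [h1]
    have h2 := Real.exp_one_lt_d9
    calc Real.exp 1 ^ 3 ≤ (2.7182818286 : ℝ) ^ 3 := pow_le_pow_left₀ (Real.exp_pos 1).le h2.le 3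
      _ ≤ 32 := by norm_num
  have hlogδ : 3 ≤ Real.log (1 / δ) := by
    refine hlog32.trans (Real.log_le_log (by norm_num) ?_)
    rw [le_div_iff₀ hδ]
    linarith
  have hδc : (1:ℝ) ≤ 1000 / δ ^ 2 := by
    rw [le_div_iff₀ (by positivity)]
    nlinarith
  refine ⟨2 * Real.log (1 / δ) + 1, 1000 / δ ^ 2, max T1 (Real.exp (Real.exp 1)), by positivity,
    fun T hT c hadm => ?_⟩
  have hTT1 : T1 ≤ T := (le_max_left _ _).trans hT
  have hTe : Real.exp (Real.exp 1) ≤ T := (le_max_right _ _).trans hT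
  obtain ⟨hT1', hc, hlog, hll⟩ := adm_small hTe hδc hadm
  have hT0 : 0 < T := by linarith
  have hmem := mem_PR (T := T) (c := c) hT1' hδ hc
  have hww : ∀ p : ℕ, ww T c p = Real.log p / (Real.log T / c) := by
    intro p
    unfold ww
    field_simp
  have hcc : 1000 ≤ δ ^ 2 * c := by
    have := hadm.1
    rw [div_le_iff₀ (by positivity)] at this
    linarith
  have hL : 0 < Real.log T / c := by positivity
  have hLll : 64 * Real.log (Real.log T) ≤ δ ^ 2 * (Real.log T / c) := by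
    have h5 := hadm.2
    rw [← mul_div_assoc, le_div_iff₀ hc]
    linarith
  refine ⟨fun p hp => ?_, ?_⟩
  · rw [hmem] at hp
    obtain ⟨hpp, h1, h2⟩ := hp
    have hp0 : (0:ℝ) < p := by exact_mod_cast hpp.pos
    refine ⟨hpp, ?_, ?_, ?_, ?_⟩
    · rw [← Real.log_lt_log_iff (by positivity) hp0, Real.log_pow]
      have h3 : Real.log T / c / (1 / δ) = δ * (Real.log T / c) := by field_simp
      rw [h3] at h1
      refine lt_of_le_of_lt ?_ h1
      push_cast
      have h4 : δ ^ 2 * (Real.log T / c) ≤ δ * (Real.log T / c) := by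
        apply mul_le_mul_of_nonneg_right _ hL.le
        nlinarith
      linarith
    · rw [← Real.log_le_log_iff hp0 (by positivity), Real.log_rpow hT0]
      refine h2.trans ?_
      have h3 : 1 / δ * (Real.log T / c) = Real.log T / (δ * c) := by field_simp
      rw [h3, div_le_iff₀ (by positivity)]
      have h4 : δ / 1000 * Real.log T * (δ * c) = Real.log T * (δ ^ 2 * c / 1000) := by ring
      rw [h4]
      have h5 : 1 ≤ δ ^ 2 * c / 1000 := by
        rw [le_div_iff₀ (by norm_num)]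
        linarith
      calc Real.log T = Real.log T * 1 := (mul_one _).symm
        _ ≤ _ := mul_le_mul_of_nonneg_left h5 hlog.le
    · rw [hww, lt_div_iff₀ hL]
      calc δ * (Real.log T / c) = Real.log T / c / (1 / δ) := by field_simp
        _ < _ := h1
    · rw [hww, div_le_iff₀ hL]
      exact h2
  · set L := Real.log T / c with hLdef
    have ha0 : 0 < L / (1 / δ) := by positivity
    have hab : L / (1 / δ) ≤ 1 / δ * L := by
      have h1 : L / (1 / δ) = δ * L := by field_simp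
      rw [h1]
      apply mul_le_mul_of_nonneg_right _ hL.le
      rw [le_div_iff₀ hδ]
      nlinarith
    have hb0 : 0 < 1 / δ * L := by positivity
    have h1 := hs (L / (1 / δ)) (1 / δ * L) ha0.le hab (PR δ T c) hmem (fun u => u⁻¹) (fun u => -(u ^ 2)⁻¹)
      (fun u hu => hasDerivAt_inv (lt_of_lt_of_le ha0 hu.1).ne') (by
        apply ContinuousOn.neg
        apply ContinuousOn.inv₀ (by fun_prop)
        intro u hu
        have : 0 < u := lt_of_lt_of_le ha0 hu.1
        positivity)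
    have h2 : ∑ p ∈ PR δ T c, Real.log p / p * (Real.log p)⁻¹ = ∑ p ∈ PR δ T c, (1 / p : ℝ) := by
      refine Finset.sum_congr rfl fun p hp => ?_
      rw [hmem] at hp
      have hl0 : 0 < Real.log p := lt_trans ha0 hp.2.1
      field_simp
    have h3 : ∫ u in (L / (1 / δ))..(1 / δ * L), u⁻¹ = 2 * Real.log (1 / δ) := by
      rw [integral_inv_of_pos ha0 hb0]
      have h4 : 1 / δ * L / (L / (1 / δ)) = (1 / δ) ^ 2 := by field_simp
      rw [h4, Real.log_pow]
      norm_num
    have h5 : |(1 / δ * L)⁻¹| + ∫ u in (L / (1 / δ))..(1 / δ * L), |-(u ^ 2)⁻¹| = (L / (1 / δ))⁻¹ := by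
      have h6 : ∫ u in (L / (1 / δ))..(1 / δ * L), |-(u ^ 2)⁻¹| =
          (L / (1 / δ))⁻¹ - (1 / δ * L)⁻¹ := by
        have h7 : ∫ u in (L / (1 / δ))..(1 / δ * L), |-(u ^ 2)⁻¹| =
            ∫ u in (L / (1 / δ))..(1 / δ * L), (u ^ 2)⁻¹ := by
          apply intervalIntegral.integral_congr
          intro u _
          show |-(u ^ 2)⁻¹| = (u ^ 2)⁻¹
          rw [abs_neg, abs_of_nonneg (by positivity)]
        rw [h7]
        have h8 : ∫ u in (L / (1 / δ))..(1 / δ * L), (u ^ 2)⁻¹ =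
            -(1 / δ * L)⁻¹ - -(L / (1 / δ))⁻¹ := by
          apply intervalIntegral.integral_eq_sub_of_hasDerivAt (f := fun u => -u⁻¹)
          · intro u hu
            rw [uIcc_of_le hab] at hu
            have := (hasDerivAt_inv (lt_of_lt_of_le ha0 hu.1).ne').neg
            rw [neg_neg] at this
            exact this
          · apply ContinuousOn.intervalIntegrable
            rw [uIcc_of_le hab]
            apply ContinuousOn.inv₀ (by fun_prop)
            intro u hu
            have : 0 < u := lt_of_lt_of_le ha0 hu.1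
            positivity
        rw [h8]
        ring
      rw [h6, abs_of_pos (by positivity)]
      ring
    have h9 : E * (L / (1 / δ))⁻¹ ≤ 1 := by
      have h10 : (L / (1 / δ))⁻¹ = 1 / (δ * L) := by field_simp
      rw [h10, mul_one_div, div_le_one (by positivity)]
      have h11 := hT1 T hTT1
      have h12 : δ ^ 2 * L ≤ δ * L := by
        apply mul_le_mul_of_nonneg_right _ hL.le
        nlinarith
      linarith
    rw [h2, h3, h5] at h1
    have h13 := abs_le.1 (h1.trans h9)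
    constructor <;> linarith [h13.1, h13.2]

/-- R3'. -/
theorem PR_mass {δ : ℝ} (hδ : 0 < δ) (hδ1 : δ ≤ 1 / 32) : ∃ c0 T0 : ℝ, ∀ T, T0 ≤ T → ∀ c, Adm δ c0 T c →
    1 / 2 - 3 * δ ≤ ∑ p ∈ PR δ T c, sn T c p ^ 2 * ww T c p / p ∧
    ∑ p ∈ PR δ T c, sn T c p ^ 2 * ww T c p / p ≤ 1 / 2 + δ / 10 := by
  obtain ⟨E, hE, hs⟩ := sinc_sum_abs
  have htend : Tendsto (fun T : ℝ => Real.log (Real.log T)) atTop atTop :=
    Real.tendsto_log_atTop.comp Real.tendsto_log_atTop
  obtain ⟨T1, hT1⟩ := eventually_atTop.1 (htend.eventually_ge_atTop (E / (64 * (δ ^ 4 / 2))))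
  refine ⟨1, max T1 (Real.exp (Real.exp 1)), fun T hT c hadm => ?_⟩
  have hpi := Real.pi_pos
  have hpi3 := Real.pi_gt_three
  have hTT1 : T1 ≤ T := (le_max_left _ _).trans hT
  have hTe : Real.exp (Real.exp 1) ≤ T := (le_max_right _ _).trans hT
  obtain ⟨hT1', hc, hlog, hll⟩ := adm_small hTe le_rfl hadm
  have hN : 1 ≤ 1 / δ := by
    rw [le_div_iff₀ hδ]
    linarith
  have h1 := hs (1 / δ) (Real.log T / c) hN (by positivity) (PR δ T c) (mem_PR hT1' hδ hc)
  have h2 : ∀ p : ℕ, Real.log p / (Real.log T / c) = ww T c p := by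
    intro p
    unfold ww
    field_simp
  simp only [h2] at h1
  have h3 : ∑ p ∈ PR δ T c, sn T c p ^ 2 * ww T c p / p =
      (1 / Real.pi ^ 2) * ∑ p ∈ PR δ T c, Real.sin (Real.pi * ww T c p) ^ 2 / (p * ww T c p) := by
    rw [Finset.mul_sum]
    refine Finset.sum_congr rfl fun p hp => ?_
    rw [mem_PR hT1' hδ hc] at hp
    have hp0 : (0:ℝ) < p := by exact_mod_cast hp.1.pos
    have hl0 : 0 < Real.log p := lt_trans (by positivity) hp.2.1
    have hw0 : 0 < ww T c p := by
      unfold ww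
      positivity
    unfold sn
    field_simp
  have h4 : E * (1 / δ) ^ 2 / (Real.log T / c) ≤ δ / 2 := by
    have h5 := hadm.2
    have h6 : E ≤ 64 * (δ ^ 4 / 2) * Real.log (Real.log T) := by
      have := hT1 T hTT1
      rw [div_le_iff₀ (by positivity)] at this
      linarith
    have h7 : E * c ≤ δ ^ 4 / 2 * (δ ^ 2 * Real.log T) := by
      calc E * c ≤ 64 * (δ ^ 4 / 2) * Real.log (Real.log T) * c := by gcongr
        _ = δ ^ 4 / 2 * (64 * (c * Real.log (Real.log T))) := by ring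
        _ ≤ _ := by gcongr
    have h8 : E * (1 / δ) ^ 2 / (Real.log T / c) = E * c / (δ ^ 2 * Real.log T) := by field_simp
    rw [h8, div_le_iff₀ (by positivity)]
    refine h7.trans ?_
    apply mul_le_mul_of_nonneg_right _ (by positivity)
    have h9 : δ ^ 4 ≤ δ := by
      calc δ ^ 4 = δ * δ ^ 3 := by ring
        _ ≤ δ * 1 := by
          gcongr
          exact pow_le_one₀ hδ.le (by linarith)
        _ = δ := mul_one δ
    linarith
  have h5 := abs_le.1 (h1.trans h4)
  have h6 := int_main hN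
  have h7 := int_main_le hN
  have h8 : 16 / (1 / δ) = 16 * δ := by field_simp
  rw [h8] at h6
  rw [h3]
  set S := ∑ p ∈ PR δ T c, Real.sin (Real.pi * ww T c p) ^ 2 / (p * ww T c p)
  have hpi9 : (9:ℝ) ≤ Real.pi ^ 2 := by nlinarith
  constructor
  · rw [one_div_mul_eq_div, le_div_iff₀ (by positivity)]
    nlinarith [h5.1]
  · rw [one_div_mul_eq_div, div_le_iff₀ (by positivity)]
    nlinarith [h5.2]

end Pool.Agent.Helper7.UV
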