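import Pool.Agent.Helper7.UV.R3

/-!
# UV R5, from a lower bound for `VV`
-/

set_option autoImplicit false
open MeasureTheory Set Filter Topology
open Pool.Agent.Helper69.UV (Adm ww PR sn rp VV)

namespace Pool.Agent.Helper7.UV

lemma abs_sn_le (T c : ℝ) (p : ℕ) : |sn T c p| ≤ 1 := by
  unfold sn
  by_cases h : Real.pi * ww T c p = 0
  · rw [h]
    simp
  · have h1 := Real.abs_sinc_le_one (Real.pi * ww T c p)
    rwa [Real.sinc_of_ne_zero h] at h1

lemma abs_rp_le (T c v : ℝ) (p : ℕ) : |rp T c v p| ≤ |v| := by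
  unfold rp
  rw [abs_mul]
  exact mul_le_of_le_one_right (abs_nonneg _) (abs_sn_le T c p)

/-- R5, from the lower bound of `VV` by the full product. -/
theorem prod_le_VV_of {δ : ℝ} (hδ : 0 < δ) (hδ1 : δ ≤ 1 / 32)
    (hV : ∃ c0 T0 : ℝ, ∀ T, T0 ≤ T → ∀ c, Adm δ c0 T c → ∀ v : ℝ, v ^ 2 = (1 - 4 * δ) * c →
      ∏ p ∈ PR δ T c, (1 + rp T c v p ^ 2 / p) ≤ 2 * VV δ T c v) :
    ∃ C c0 T0 : ℝ, 0 < C ∧ ∀ T, T0 ≤ T → ∀ c, Adm δ c0 T c → ∀ v : ℝ, v ^ 2 = (1 - 4 * δ) * c →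
    ∏ p ∈ PR δ T c, (1 + (2 + |rp T c v p|) ^ 2 / p + 2 * (2 + 2 * |rp T c v p|) ^ 2 / p ^ 2) ≤
      C * Real.exp (C * √c) * VV δ T c v := by
  obtain ⟨c1, T1, hV⟩ := hV
  obtain ⟨C3, c3, T3, hC3, h3⟩ := PR_facts hδ hδ1
  refine ⟨max 2 (40 * C3), max (max c1 c3) 1, max (max T1 T3) (Real.exp (Real.exp 1)), by positivity,
    fun T hT c hadm v hv => ?_⟩
  simp only [max_le_iff] at hT
  obtain ⟨⟨hTT1, hTT3⟩, hTe⟩ := hT
  have hc0 := hadm.1
  simp only [max_le_iff] at hc0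
  obtain ⟨⟨hcc1, hcc3⟩, hc1⟩ := hc0
  obtain ⟨hT1', hc, hlog, hll⟩ := adm_small hTe (le_max_right _ _) hadm
  have hV := hV T hTT1 c ⟨hcc1, hadm.2⟩ v hv
  obtain ⟨hP, -, hS⟩ := h3 T hTT3 c ⟨hcc3, hadm.2⟩
  have hclog : c ≤ Real.log T := by
    have h5 := hadm.2
    have h6 : 64 * (c * 1) ≤ 64 * (c * Real.log (Real.log T)) := by gcongr
    have h7 : δ ^ 2 * Real.log T ≤ 1 * Real.log T := by
      apply mul_le_mul_of_nonneg_right _ hlog.le
      nlinarith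
    linarith
  have hs0 : 1 ≤ √c := Real.one_le_sqrt.2 hc1
  have hss : √c * √c = c := Real.mul_self_sqrt hc.le
  have hvc : |v| ≤ √c := by
    apply Real.abs_le_sqrt
    rw [hv]
    nlinarith
  have hVV0 : 0 ≤ VV δ T c v := by
    unfold Pool.Agent.Helper69.UV.VV
    positivity
  have hpt : ∀ p ∈ PR δ T c, 1 + (2 + |rp T c v p|) ^ 2 / p + 2 * (2 + 2 * |rp T c v p|) ^ 2 / (p : ℝ) ^ 2 ≤
      (1 + rp T c v p ^ 2 / p) * Real.exp (40 * √c * (1 / p)) := by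
    intro p hp
    obtain ⟨hpp, hpl, -, -, -⟩ := hP p hp
    have hp0 : (0:ℝ) < p := by exact_mod_cast hpp.pos
    have hr := abs_rp_le T c v p
    set r := |rp T c v p| with hrdef
    have hr0 : 0 ≤ r := abs_nonneg _
    have hrs : r ≤ √c := hr.trans hvc
    have hsq : rp T c v p ^ 2 = r ^ 2 := by rw [hrdef, sq_abs]
    have hlogT1 : 1 ≤ Real.log T := hc1.trans hclog
    have hcp : c ≤ p := by
      calc c ≤ Real.log T := hclog
        _ = Real.log T ^ 1 := (pow_one _).symm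
        _ ≤ Real.log T ^ 4 := pow_le_pow_right₀ hlogT1 (by norm_num)
        _ ≤ p := hpl.le
    have h8 : 2 * (2 + 2 * r) ^ 2 / (p : ℝ) ^ 2 ≤ 32 * (1 / p) := by
      rw [mul_one_div, div_le_div_iff₀ (by positivity) hp0]
      have h9 : (2 + 2 * r) ^ 2 ≤ 16 * c := by nlinarith
      nlinarith
    have h10 : (2 + r) ^ 2 / p = r ^ 2 / p + (4 + 4 * r) * (1 / p) := by
      field_simp
      ring
    have h11 : 1 + (2 + r) ^ 2 / p + 2 * (2 + 2 * r) ^ 2 / (p : ℝ) ^ 2 ≤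
        (1 + r ^ 2 / p) * (1 + (36 + 4 * r) * (1 / p)) := by
      rw [h10]
      have h12 : 0 ≤ r ^ 2 / p * ((36 + 4 * r) * (1 / p)) := by positivity
      nlinarith
    rw [hsq]
    refine h11.trans (mul_le_mul_of_nonneg_left ?_ (by positivity))
    refine le_trans ?_ (Real.add_one_le_exp _)
    have h13 : (36 + 4 * r) * (1 / (p : ℝ)) ≤ 40 * √c * (1 / p) := by
      gcongr
      linarith
    linarith
  calc ∏ p ∈ PR δ T c, (1 + (2 + |rp T c v p|) ^ 2 / p + 2 * (2 + 2 * |rp T c v p|) ^ 2 / (p : ℝ) ^ 2)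
      ≤ ∏ p ∈ PR δ T c, ((1 + rp T c v p ^ 2 / p) * Real.exp (40 * √c * (1 / p))) :=
        Finset.prod_le_prod (fun p _ => by positivity) hpt
    _ = (∏ p ∈ PR δ T c, (1 + rp T c v p ^ 2 / p)) * Real.exp (40 * √c * ∑ p ∈ PR δ T c, (1 / p : ℝ)) := by
        rw [Finset.prod_mul_distrib, ← Real.exp_sum, Finset.mul_sum]
    _ ≤ (2 * VV δ T c v) * Real.exp (max 2 (40 * C3) * √c) := by
        apply mul_le_mul hV _ (Real.exp_pos _).le (by positivity)
        apply Real.exp_le_exp.2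
        calc 40 * √c * ∑ p ∈ PR δ T c, (1 / p : ℝ) ≤ 40 * √c * C3 := by gcongr
          _ = 40 * C3 * √c := by ring
          _ ≤ _ := by
            gcongr
            exact le_max_right _ _
    _ = 2 * Real.exp (max 2 (40 * C3) * √c) * VV δ T c v := by ring
    _ ≤ _ := by
        gcongr
        exact le_max_left _ _

end Pool.Agent.Helper7.UV
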